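import Pool.Agent.NH29.GK.Stm
import Pool.Agent.NH29.GN.Stb2
import Pool.Agent.NH29.GN.Ncz
import Pool.Agent.NH29.GN.Alg

/-!
# Project GK, GNZ: general forms have no common zero
-/

set_option autoImplicit false

namespace Pool.Agent.NH29.GK

open MvPolynomial Filter
open Pool.Agent.NH29.GN
open Pool.Agent.NH29.GN.Stb2

theorem gnz : GnzStm := by
  classical
  intro k _ _ M n q V hV ℓ hℓ hNZ hnq d hd
  by_contra hcon
  have hyp : ∀ Φ : MvPolynomial (Idx M d) k, Φ ≠ 0 → ∃ (K : Type) (_ : Field K) (_ : Algebra k K)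
      (t : Idx M d → K), aeval t Φ ≠ 0 ∧ ∃ y : Fin (M + 1) → K, (∀ H ∈ V, aeval y H = 0) ∧
        (∀ i, fv t y i = 0) ∧ y ≠ 0 := by
    intro Φ hΦ
    by_contra hno
    refine hcon ⟨Φ, hΦ, fun K iK iA t ht y hy1 hy2 => ?_⟩
    by_contra hy3
    exact hno ⟨K, iK, iA, t, ht, y, hy1, hy2, hy3⟩
  -- the index set
  let I : Type := {Q : MvPolynomial (Idx M d) k // Q ≠ 0}
  let A : I → Set I := fun P => {Q : I | P.1 ∣ Q.1}
  have : Nonempty I := ⟨⟨1, one_ne_zero⟩⟩
  have hdir : Directed (· ≥ ·) (fun P : I => (𝓟 (A P) : Filter I)) := by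
    intro P P'
    refine ⟨⟨P.1 * P'.1, mul_ne_zero P.2 P'.2⟩, ?_, ?_⟩
    · show 𝓟 _ ≤ 𝓟 _
      rw [principal_mono]
      intro Q hQ
      exact (Dvd.intro _ rfl).trans hQ
    · show 𝓟 _ ≤ 𝓟 _
      rw [principal_mono]
      intro Q hQ
      exact (Dvd.intro_left _ rfl).trans hQ
  have : NeBot (⨅ P : I, (𝓟 (A P) : Filter I)) := by
    apply iInf_neBot_of_directed' hdir
    intro P
    rw [principal_neBot_iff]
    exact ⟨P, dvd_refl _⟩
  let U : Ultrafilter I := Ultrafilter.of (⨅ P : I, (𝓟 (A P) : Filter I))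
  have hU : ∀ P : I, ∀ᶠ Q in (U : Filter I), P.1 ∣ Q.1 := by
    intro P
    have h1 : A P ∈ (⨅ P : I, (𝓟 (A P) : Filter I)) :=
      mem_iInf_of_mem P (mem_principal_self _)
    exact (Ultrafilter.of_le (⨅ P : I, (𝓟 (A P) : Filter I))) h1
  choose K iK iA t ht y hy1 hy2 hy3 using fun Q : I => hyp Q.1 Q.2
  let _ : Algebra k (UPr U K) :=
    ((pr U K).comp (algebraMap k (∀ i, K i))).toAlgebra
  have hal1 : ∀ a : k, algebraMap k (UPr U K) a =
      pr U K (fun i => algebraMap k (K i) a) := fun _ => rfl
  obtain ⟨t', ht'⟩ : ∃ t' : Idx M d → UPr U K, t' = fun j => pr U K (fun Q => t Q j) := ⟨_, rfl⟩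
  obtain ⟨y', hy'⟩ : ∃ y' : Fin (M + 1) → UPr U K, y' = fun j => pr U K (fun Q => y Q j) :=
    ⟨_, rfl⟩
  have hfv : ∀ i, fv t' y' i = 0 := by
    intro i
    have h1 : fv t' y' i = pr U K (fun Q => fv (t Q) (y Q) i) := by
      unfold fv
      rw [pr_sum]
      apply Finset.sum_congr rfl
      intro β _
      rw [pr_mul]
      have h2 : val y' β.1 = pr U K (fun Q => val (y Q) β.1) := by
        unfold val
        rw [pr_prod]
        apply Finset.prod_congr rfl
        intro j _
        rw [pr_pow, hy']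
      rw [h2, ht']
      rfl
    rw [h1, pr_eq_zero]
    exact Eventually.of_forall fun Q => hy2 Q i
  have hevt : ∀ P : MvPolynomial (Idx M d) k, aeval t' P = pr U K (fun Q => aeval (t Q) P) := by
    intro P
    induction P using MvPolynomial.induction_on with
    | C a =>
      simp only [algHom_C]
      exact hal1 a
    | add p p' h h' =>
      simp only [map_add]
      rw [h, h', ← map_add]
      rfl
    | mul_X p n h =>
      simp only [map_mul, aeval_X]
      rw [h, pr_mul, ht']
  have hevy : ∀ P : MvPolynomial (Fin (M + 1)) k, aeval y' P =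
      pr U K (fun Q => aeval (y Q) P) := by
    intro P
    induction P using MvPolynomial.induction_on with
    | C a =>
      simp only [algHom_C]
      exact hal1 a
    | add p p' h h' =>
      simp only [map_add]
      rw [h, h', ← map_add]
      rfl
    | mul_X p n h =>
      simp only [map_mul, aeval_X]
      rw [h, pr_mul, hy']
  have hind : AlgebraicIndependent k t' := by
    rw [algebraicIndependent_iff]
    intro P hP
    by_contra hne
    rw [hevt, pr_eq_zero] at hP
    obtain ⟨Q, hQ1, hQ2⟩ := (hP.and (hU ⟨P, hne⟩)).exists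
    obtain ⟨R, hR⟩ := hQ2
    apply ht Q
    have : Q.1 = P * R := hR
    rw [this, map_mul, hQ1, zero_mul]
  -- the algebraic closure
  have hinj : Function.Injective (algebraMap (UPr U K) (AlgebraicClosure (UPr U K))) :=
    (algebraMap (UPr U K) (AlgebraicClosure (UPr U K))).injective
  have hind2 : AlgebraicIndependent k
      (fun j => algebraMap (UPr U K) (AlgebraicClosure (UPr U K)) (t' j)) :=
    AlgebraicIndependent.map' hind
      (f := IsScalarTower.toAlgHom k (UPr U K) (AlgebraicClosure (UPr U K))) hinj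
  have h0 := ncz alg k (AlgebraicClosure (UPr U K)) M n q V hV ℓ hℓ hNZ hnq d hd _ hind2
    (fun i => algebraMap (UPr U K) (AlgebraicClosure (UPr U K)) (y' i)) (by
      intro H hH
      have h3 := aeval_algebraMap_apply (AlgebraicClosure (UPr U K)) y' H
      refine h3.trans ?_
      rw [hevy]
      have h4 : pr U K (fun Q => aeval (y Q) H) = 0 := by
        rw [pr_eq_zero]
        exact Eventually.of_forall fun Q => hy1 Q H hH
      rw [h4, map_zero]) (by
      intro i
      have h5 : fv (fun j => algebraMap (UPr U K) (AlgebraicClosure (UPr U K)) (t' j))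
          (fun i => algebraMap (UPr U K) (AlgebraicClosure (UPr U K)) (y' i)) i =
          algebraMap (UPr U K) (AlgebraicClosure (UPr U K)) (fv t' y' i) := by
        unfold fv val
        rw [map_sum]
        apply Finset.sum_congr rfl
        intro β _
        rw [map_mul, map_prod]
        congr 1
        apply Finset.prod_congr rfl
        intro j _
        rw [map_pow]
      rw [h5, hfv, map_zero])
  have h6 : ∀ᶠ Q in (U : Filter I), ∀ j, y Q j = 0 := by
    rw [eventually_all]
    intro j
    have h7 : algebraMap (UPr U K) (AlgebraicClosure (UPr U K)) (y' j) = 0 := congrFun h0 j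
    have h8 : y' j = 0 := hinj (by rw [h7, map_zero])
    rwa [hy', pr_eq_zero] at h8
  obtain ⟨Q, hQ⟩ := h6.exists
  exact hy3 Q (funext hQ)

end Pool.Agent.NH29.GK
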