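import Pool.Agent.NH29.GK.Stm
import Pool.Agent.NH29.GN.Sml
import Pool.Agent.NH29.GN.Ld
import Pool.Agent.NH29.GN.Abs
import Pool.Agent.NH29.GN.Stb2
import Pool.Agent.NH29.GN.Hg
import Pool.Agent.NH29.GN.Blk
import Pool.Agent.NH29.GN.Fin3
import Pool.Agent.NH29.GN.Der
import Pool.Agent.NH29.GN.Alg
import Pool.Agent.NH29.GN.Int
import Pool.Agent.NH29.GN.Rel
import Pool.Agent.NH29.GN.Hilb
import Pool.Agent.NH29.GN.Ncz

/-!
# Algebraic hyperbolicity of Zariski-general complements
-/

set_option autoImplicit false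

namespace Pool.Agent.NH29.GK

open MvPolynomial Filter FF
open Pool.Agent.NH29.GN Pool.Agent.W603.LV Pool.Agent.W603.PV

/-- no bad point for algebraically independent coefficients -/
theorem stcP : Stc2Stm := stc2 der alg (int (ncz alg) alg) rel lin2 hilb

/-! ### Change of the field of coefficients -/

section cng

variable {K E : Type} [Field K] [Field E] [Algebra K E] {M q : ℕ} {d : Fin q → ℕ}

lemma fv_map (t : Idx M d → K) (x : Fin (M + 1) → E) (b : Fin q) :
    fv (K := E) (L := E) (fun s => algebraMap K E (t s)) x b = fv t x b := rfl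

lemma quo_map (C : Finset (Fin q)) (t : Idx M d → K) (x : Fin (M + 1) → E) (b₀ b : Fin q) :
    quo (K := E) (L := E) C (fun s => algebraMap K E (t s)) x b₀ b = quo C t x b₀ b := rfl

end cng

lemma hgt_cst {K E : Type} [Field K] [Field E] [Algebra K E] [IsAlgClosed K] [CharZero K]
    [IsFF K E] (c : K) : hgt K (algebraMap K E c) = 0 := by
  by_cases hc : c = 0
  · rw [hc, map_zero, (hg K E).1]
  · rw [hgt_finset (algebraMap K E c) ∅ fun P hP => absurd (P.ord_const hc) hP, Finset.sum_empty]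

lemma exists_ev {α : Type} [Finite α] (𝒰 : Ultrafilter ℕ) (P : α → ℕ → Prop)
    (h : ∀ᶠ s in (𝒰 : Filter ℕ), ∃ a, P a s) : ∃ a, ∀ᶠ s in (𝒰 : Filter ℕ), P a s := by
  by_contra hcon
  push Not at hcon
  have h1 : ∀ᶠ s in (𝒰 : Filter ℕ), ∀ a, ¬ P a s :=
    eventually_all.2 fun a => Ultrafilter.eventually_not.2 fun h2 => by
      obtain ⟨s, hs1, hs2⟩ := (h2.and (hcon a)).exists
      exact hs2 hs1
  obtain ⟨s, ⟨a, ha⟩, hs⟩ := (h.and h1).exists
  exact hs a ha

/-- one stratum -/
theorem ah_one {k : Type} [Field k] [CharZero k] {M n q : ℕ}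
    {V : Set (MvPolynomial (Fin (M + 1)) k)} (hV : ∀ H ∈ V, ∃ e, H.IsHomogeneous e)
    {ℓ : Fin (n + 1) → MvPolynomial (Fin (M + 1)) k} (hℓ : ∀ j, (ℓ j).IsHomogeneous 1)
    (hN : NoZero V ℓ) (hq : n + 1 ≤ q) {d : Fin q → ℕ} (hd : ∀ i, 1 ≤ d i)
    (C : Finset (Fin q)) (hNum : Num2 n d C) :
    ∃ (Φ : MvPolynomial (Idx M d) k) (c : ℕ), Φ ≠ 0 ∧
      ∀ (K : Type) [Field K] [Algebra k K] [IsAlgClosed K] (t : Idx M d → K), aeval t Φ ≠ 0 →
      ∀ (E : Type) [Field E] [Algebra K E] [IsFF K E] (S : Finset (Place K E))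
      (x : Fin (M + 1) → E), Integral K V t C S x →
      pht K x ≤ c * max (canDeg K E + S.card) 0 := by
  classical
  by_contra hcon
  push Not at hcon
  obtain ⟨K', L', _, _, _, _, _, t', x', ht', hx'⟩ := stb2 k M q V d C (by
    intro Q hQ
    choose K iK iA iC t ht E iE iAE iFF S x hx hlt using fun s : ℕ => hcon Q s hQ
    have hc0 : ∀ s, CharZero (K s) := fun s =>
      charZero_of_injective_algebraMap (algebraMap k (K s)).injective
    let iAk : ∀ s, Algebra k (E s) := fun s =>
      ((algebraMap (K s) (E s)).comp (algebraMap k (K s))).toAlgebra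
    obtain ⟨𝒰, h𝒰⟩ : ∃ 𝒰 : Ultrafilter ℕ, 𝒰 = hyperfilter ℕ := ⟨_, rfl⟩
    have hcof : ∀ R : ℕ, ∀ᶠ s in (𝒰 : Filter ℕ), R ≤ s := by
      intro R
      have h1 : ∀ᶠ s in (cofinite : Filter ℕ), R ≤ s := by
        rw [Nat.cofinite_eq_atTop]
        exact eventually_ge_atTop R
      rw [h𝒰]
      exact hyperfilter_le_cofinite h1
    have hX0 : ∀ s, (0 : ℤ) ≤ max (canDeg (K s) (E s) + (S s).card) 0 := fun s => le_max_right _ _
    have hpos : ∀ s, (0 : ℤ) < pht (K s) (x s) := fun s =>
      lt_of_le_of_lt (mul_nonneg (Int.natCast_nonneg s) (hX0 s)) (hlt s)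
    let T : HFam 𝒰 E :=
      { h := fun s a => (hgt (K s) a : ℝ)
        H := fun s => (pht (K s) (x s) : ℝ)
        c := fun _ => 0
        nonneg := fun s a => by exact_mod_cast hgt_nonneg a
        zero := fun s => by
          rw [(hg (K s) (E s)).1]
          norm_num
        one := fun s => by
          rw [hgt_one]
          norm_num
        neg := fun s a => by
          rw [add_zero]
          exact_mod_cast (hg (K s) (E s)).2.2.2.1 a
        inv := fun s a => by
          rw [add_zero, hgt_inv]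
        add := fun s a b => by
          rw [add_zero]
          exact_mod_cast (hg (K s) (E s)).2.1 a b
        mul := fun s a b => by
          rw [add_zero]
          exact_mod_cast (hg (K s) (E s)).2.2.1 a b
        root := fun n s g a h => by
          rw [add_zero]
          exact_mod_cast (hg (K s) (E s)).2.2.2.2.1 n g a h
        small := fun n N => Eventually.of_forall fun s => by
          rw [mul_zero]
          exact_mod_cast (hpos s).le }
    have hconst : ∀ (f : ∀ s, K s), Sm T fun s => algebraMap (K s) (E s) (f s) := by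
      intro f N
      refine Eventually.of_forall fun s => ?_
      change (N : ℝ) * (hgt (K s) (algebraMap (K s) (E s) (f s)) : ℝ) ≤ (pht (K s) (x s) : ℝ)
      rw [hgt_cst, Int.cast_zero, mul_zero]
      exact_mod_cast (hpos s).le
    obtain ⟨K', L', i1, i2, i3, i4, i5, t', x', h1, h2⟩ := abs sml ld k ℕ 𝒰 E T M q V d C
      (fun s i => algebraMap (K s) (E s) (t s i)) x Q
      (fun a => hconst fun s => algebraMap k (K s) a) (fun i => hconst fun s => t s i)
      (fun s => by
        have h1 : aeval (fun i => algebraMap (K s) (E s) (t s i)) Q =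
            algebraMap (K s) (E s) (aeval (t s) Q) := by
          rw [aeval_def, aeval_def, hom_eval₂]
          rfl
        rw [h1, Ne, map_eq_zero]
        exact ht s)
      (fun s H hH => (hx s).onV H hH)
      (fun s c hc => (hx s).onC c hc)
      (fun s b hb => (hx s).off b hb)
      (fun s => (hx s).ne)
      (by
        intro a₀ ha₀
        by_contra hall
        push Not at hall
        have h1 : ∀ᶠ s in (𝒰 : Filter ℕ), ∀ a, ((2 * (M + 1) : ℕ) : ℝ) *
            (hgt (K s) (x s a / x s a₀) : ℝ) ≤ (pht (K s) (x s) : ℝ) :=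
          eventually_all.2 fun a => hall a (2 * (M + 1))
        obtain ⟨s, hs1, hs2⟩ := (h1.and ha₀).exists
        have h2 : (pht (K s) (x s) : ℝ) ≤ ∑ a, (hgt (K s) (x s a / x s a₀) : ℝ) := by
          exact_mod_cast (hg (K s) (E s)).2.2.2.2.2 M (x s) a₀ hs2
        have h3 : ((2 * (M + 1) : ℕ) : ℝ) * ∑ a, (hgt (K s) (x s a / x s a₀) : ℝ) ≤
            (M + 1) * (pht (K s) (x s) : ℝ) := by
          rw [Finset.mul_sum]
          refine (Finset.sum_le_sum fun a _ => hs1 a).trans (le_of_eq ?_)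
          rw [Finset.sum_const, Finset.card_univ, Fintype.card_fin, nsmul_eq_mul]
          push_cast
          ring
        have h4 : (0 : ℝ) < pht (K s) (x s) := by exact_mod_cast hpos s
        have h5 : (0 : ℝ) < (M : ℝ) + 1 := by positivity
        have h6 := mul_le_mul_of_nonneg_left h2 (by positivity : (0 : ℝ) ≤ ((2 * (M + 1) : ℕ) : ℝ))
        push_cast at h3 h6
        nlinarith [mul_pos h5 h4])
      (by
        intro b₀ hb₀ S' hS' c hcS hc0' hrel
        have hneS : Nonempty {m // m ∈ S'} := hS'.to_subtype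
        obtain ⟨B, hB0, hB⟩ := blk
        have hqne : ∀ s b, quo C (t s) (x s) b₀ b ≠ 0 := by
          intro s b
          unfold quo
          split_ifs with hb
          · exact one_ne_zero
          · exact div_ne_zero (pow_ne_zero _ ((hx s).off b hb))
              (pow_ne_zero _ ((hx s).off b₀ hb₀))
        have hqord : ∀ s, ∀ Q' ∉ S s, ∀ b, Q'.ord (quo C (t s) (x s) b₀ b) = 0 := by
          intro s Q' hQ' b
          unfold quo
          split_ifs with hb
          · exact Q'.ord_one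
          · rw [Q'.ord_div (pow_ne_zero _ ((hx s).off b hb))
              (pow_ne_zero _ ((hx s).off b₀ hb₀)), Q'.ord_pow, Q'.ord_pow,
              (hx s).int b hb Q' hQ', (hx s).int b₀ hb₀ Q' hQ']
            ring
        have hune : ∀ s (m : Fin q → ℤ), ∏ b, quo C (t s) (x s) b₀ b ^ m b ≠ 0 := fun s m =>
          Finset.prod_ne_zero_iff.2 fun b _ => zpow_ne_zero _ (hqne s b)
        have huord : ∀ s, ∀ Q' ∉ S s, ∀ m : Fin q → ℤ,
            Q'.ord (∏ b, quo C (t s) (x s) b₀ b ^ m b) = 0 := by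
          intro s Q' hQ' m
          have h1 : ∀ T : Finset (Fin q), Q'.ord (∏ b ∈ T, quo C (t s) (x s) b₀ b ^ m b) = 0 := by
            intro T
            induction T using Finset.induction_on with
            | empty => rw [Finset.prod_empty]; exact Q'.ord_one
            | insert a T ha ih =>
              rw [Finset.prod_insert ha, Q'.ord_mul (zpow_ne_zero _ (hqne s a))
                (Finset.prod_ne_zero_iff.2 fun b _ => zpow_ne_zero _ (hqne s b)), ih,
                Q'.ord_zpow, hqord s Q' hQ' a, mul_zero, add_zero]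
          exact h1 _
        have hev : ∀ᶠ s in (𝒰 : Filter ℕ), ∃ p : {m // m ∈ S'} × {m // m ∈ S'}, p.1 ≠ p.2 ∧
            hgt (K s) ((∏ b, quo C (t s) (x s) b₀ b ^ p.1.1 b) /
              ∏ b, quo C (t s) (x s) b₀ b ^ p.2.1 b) ≤ B S'.card *
              (max (canDeg (K s) (E s) + (S s).card) 0 +
                ∑ m : {m // m ∈ S'}, hgt (K s) (c m.1 s)) := by
          have h1 : ∀ᶠ s in (𝒰 : Filter ℕ), ∀ m : {m // m ∈ S'}, c m.1 s ≠ 0 :=
            eventually_all.2 fun m => hc0' m.1 m.2
          filter_upwards [h1, hrel] with s hs1 hs2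
          obtain ⟨i, j, hij, hle⟩ := hB (K s) (E s) (S s) {m // m ∈ S'} (fun m => c m.1 s)
            (fun m => ∏ b, quo C (t s) (x s) b₀ b ^ m.1 b) hs1 (fun m => hune s m.1)
            (fun Q' hQ' m => huord s Q' hQ' m.1) (by
              rw [← hs2, ← Finset.sum_coe_sort S']
              rfl)
          rw [Fintype.card_coe] at hle
          exact ⟨(i, j), hij, hle⟩
        obtain ⟨⟨i, j⟩, hij⟩ := exists_ev 𝒰 _ hev
        refine ⟨i.1, i.2, j.1, j.2, ?_, ?_⟩
        · obtain ⟨s, hs, -⟩ := hij.exists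
          exact fun h => hs (Subtype.ext h)
        · intro N
          obtain ⟨b, hb⟩ : ∃ b : ℕ, (b : ℤ) = B S'.card := ⟨(B S'.card).toNat,
            Int.toNat_of_nonneg (hB0 _)⟩
          have h1 : ∀ᶠ s in (𝒰 : Filter ℕ), ∀ m : {m // m ∈ S'},
              ((2 * N * b * S'.card : ℕ) : ℝ) * (hgt (K s) (c m.1 s) : ℝ) ≤
                (pht (K s) (x s) : ℝ) := eventually_all.2 fun m => hcS m.1 m.2 _
          filter_upwards [hij, h1, hcof (2 * N * b)] with s hs1 hs2 hs3
          have h2 : (hgt (K s) ((∏ b, quo C (t s) (x s) b₀ b ^ i.1 b) /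
              ∏ b, quo C (t s) (x s) b₀ b ^ j.1 b) : ℝ) ≤ b *
              (((max (canDeg (K s) (E s) + (S s).card) 0 : ℤ) : ℝ) +
                ∑ m : {m // m ∈ S'}, (hgt (K s) (c m.1 s) : ℝ)) := by
            have h3 := hs1.2
            rw [← hb] at h3
            exact_mod_cast h3
          have h4 : ((2 * N * b : ℕ) : ℝ) * ((max (canDeg (K s) (E s) + (S s).card) 0 : ℤ) : ℝ) ≤
              (pht (K s) (x s) : ℝ) := by
            have h5 : ((2 * N * b : ℕ) : ℤ) * max (canDeg (K s) (E s) + (S s).card) 0 ≤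
                pht (K s) (x s) :=
              (mul_le_mul_of_nonneg_right (by exact_mod_cast hs3) (hX0 s)).trans (hlt s).le
            exact_mod_cast h5
          have h6 : ((2 * N * b : ℕ) : ℝ) * ∑ m : {m // m ∈ S'}, (hgt (K s) (c m.1 s) : ℝ) ≤
              (pht (K s) (x s) : ℝ) := by
            have hcard : (0 : ℝ) < S'.card := by exact_mod_cast Finset.card_pos.2 hS'
            have h7 : ((2 * N * b * S'.card : ℕ) : ℝ) *
                ∑ m : {m // m ∈ S'}, (hgt (K s) (c m.1 s) : ℝ) ≤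
                S'.card * (pht (K s) (x s) : ℝ) := by
              rw [Finset.mul_sum]
              refine (Finset.sum_le_sum fun m _ => hs2 m).trans (le_of_eq ?_)
              rw [Finset.sum_const, Finset.card_univ, Fintype.card_coe, nsmul_eq_mul]
            have h8 : ((2 * N * b * S'.card : ℕ) : ℝ) = S'.card * ((2 * N * b : ℕ) : ℝ) := by
              push_cast
              ring
            rw [h8, mul_assoc] at h7
            exact le_of_mul_le_mul_left h7 hcard
          change (N : ℝ) * (hgt (K s) ((∏ b, quo C (t s) (x s) b₀ b ^ i.1 b) /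
              ∏ b, quo C (t s) (x s) b₀ b ^ j.1 b) : ℝ) ≤ (pht (K s) (x s) : ℝ)
          generalize ((max (canDeg (K s) (E s) + (S s).card) 0 : ℤ) : ℝ) = X at h2 h4
          generalize ∑ m : {m // m ∈ S'}, (hgt (K s) (c m.1 s) : ℝ) = Y at h2 h6
          have h9 := mul_le_mul_of_nonneg_left h2 (Nat.cast_nonneg N : (0 : ℝ) ≤ (N : ℝ))
          push_cast at h4 h6
          refine h9.trans ?_
          linarith)
    exact ⟨K', L', i1, i2, i3, i4, i5, t', x', h1, h2⟩)
  exact stcP k K' L' M n q V hV ℓ hℓ hN hq d hd C hNum t' ht' x' hx'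

/-- all strata -/
theorem ah {k : Type} [Field k] [CharZero k] {M n q : ℕ}
    {V : Set (MvPolynomial (Fin (M + 1)) k)} (hV : ∀ H ∈ V, ∃ e, H.IsHomogeneous e)
    {ℓ : Fin (n + 1) → MvPolynomial (Fin (M + 1)) k} (hℓ : ∀ j, (ℓ j).IsHomogeneous 1)
    (hN : NoZero V ℓ) (hq : n + 1 ≤ q) {d : Fin q → ℕ} (hd : ∀ i, 1 ≤ d i)
    (hNum : ∀ C : Finset (Fin q), C ≠ Finset.univ → Num2 n d C) :
    ∃ (Φ : MvPolynomial (Idx M d) k) (c : ℕ), Φ ≠ 0 ∧
      ∀ (K : Type) [Field K] [Algebra k K] [IsAlgClosed K] (t : Idx M d → K), aeval t Φ ≠ 0 →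
      ∀ C : Finset (Fin q), C ≠ Finset.univ →
      ∀ (E : Type) [Field E] [Algebra K E] [IsFF K E] (S : Finset (Place K E))
      (x : Fin (M + 1) → E), Integral K V t C S x →
      pht K x ≤ c * max (canDeg K E + S.card) 0 := by
  classical
  have h1 : ∀ C : Finset (Fin q), ∃ (Φ : MvPolynomial (Idx M d) k) (c : ℕ), Φ ≠ 0 ∧
      (C ≠ Finset.univ →
      ∀ (K : Type) [Field K] [Algebra k K] [IsAlgClosed K] (t : Idx M d → K), aeval t Φ ≠ 0 →
      ∀ (E : Type) [Field E] [Algebra K E] [IsFF K E] (S : Finset (Place K E))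
      (x : Fin (M + 1) → E), Integral K V t C S x →
      pht K x ≤ c * max (canDeg K E + S.card) 0) := by
    intro C
    by_cases hCu : C = Finset.univ
    · exact ⟨1, 0, one_ne_zero, fun h => absurd hCu h⟩
    · obtain ⟨Φ, c, h1, h2⟩ := ah_one hV hℓ hN hq hd C (hNum C hCu)
      exact ⟨Φ, c, h1, fun _ => h2⟩
  choose Φ c h1 h2 using h1
  refine ⟨∏ C, Φ C, ∑ C, c C, Finset.prod_ne_zero_iff.2 fun C _ => h1 C,
    fun K _ _ _ t ht C hCu E _ _ _ S x hx => ?_⟩
  rw [map_prod, Finset.prod_ne_zero_iff] at ht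
  refine (h2 C hCu K t (ht C (Finset.mem_univ _)) E S x hx).trans
    (mul_le_mul_of_nonneg_right ?_ (le_max_right _ _))
  exact_mod_cast Finset.single_le_sum (f := c) (fun _ _ => Nat.zero_le _) (Finset.mem_univ C)

end Pool.Agent.NH29.GK
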