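import Pool.Agent.NH29.GK.Brody
import Pool.Agent.NH2.CN.Cur
import Pool.Agent.TH735.QM.Units
import Pool.Agent.TH143.EL.Alg

/-! Entire curves in strata give bad points over the field of meromorphic functions. -/

set_option autoImplicit false

namespace Pool.Agent.NH29.GK

open MvPolynomial Filter Topology Set Pool.Agent.TH143.EL
open Pool.Agent.NH29.GN (Idx Mon fv quo val Bad Ind)
open Pool.Agent.NH2.CN (ent_mero)

/-! ### Zero-free entire functions -/

lemma cl_pow {f : ℂ → ℂ} (hf : Meromorphic f) (n : ℕ) :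
    cl f hf ^ n = cl (f ^ n) (fun z => (hf z).pow n) :=
  (map_pow (algebraMap MerS MK) ⟨f, hf⟩ n).symm

/-- Borel's theorem -/
theorem ind_units {q : ℕ} (w : Fin q → ℂ → ℂ) (hw : ∀ b, Differentiable ℂ (w b))
    (h0 : ∀ b z, w b z ≠ 0) (v : Fin q → MK) (hv : ∀ b, v b = cl (w b) (ent_mero (hw b))) :
    Ind ℂ v := by
  classical
  intro S c hsum hne e he
  obtain ⟨m, hm⟩ : ∃ m, m = Pool.Agent.Y221.AB.NB 1 S.card := ⟨_, rfl⟩
  have hm1 : 1 ≤ m := by rw [hm]; exact Pool.Agent.Y221.AB.one_le_NB 1 S.card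
  have hm0 : (m : ℂ) ≠ 0 := by exact_mod_cast (by omega : m ≠ 0)
  choose g hg hge using fun b => Pool.Agent.TH735.QM.entire_log (hw b) (h0 b)
  have hr : ∀ b, Differentiable ℂ (fun z => Complex.exp (g b z / m)) := fun b =>
    ((hg b).div_const _).cexp
  obtain ⟨ρ, hρ⟩ : ∃ ρ : Fin q → MK, ρ = fun b => cl _ (ent_mero (hr b)) := ⟨_, rfl⟩
  have hvρ : ∀ b, v b = ρ b ^ m := by
    intro b
    rw [hv, hρ]
    simp only
    refine Eq.trans ?_ (cl_pow (ent_mero (hr b)) m).symm
    refine cl_eq.2 (Eventually.of_forall fun z => ?_)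
    rw [Pi.pow_apply, hge b z, ← Complex.exp_nat_mul]
    congr 1
    field_simp
  have hρ0 : ∀ b, ρ b ≠ 0 := by
    intro b hb
    rw [hρ] at hb
    simp only at hb
    rw [cl_eq_zero] at hb
    obtain ⟨z, hz⟩ := hb.exists
    exact Complex.exp_ne_zero _ hz
  obtain ⟨U, hU⟩ : ∃ U : (Fin q → ℤ) → MK, U = fun e => ∏ b, ρ b ^ e b := ⟨_, rfl⟩
  have hU0 : ∀ e, U e ≠ 0 := by
    intro e
    rw [hU]
    exact Finset.prod_ne_zero_iff.2 fun b _ => zpow_ne_zero _ (hρ0 b)
  have hmon : ∀ e : Fin q → ℤ, ∏ b, v b ^ e b = U e ^ m := by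
    intro e
    rw [hU]
    simp only
    rw [← Finset.prod_pow]
    refine Finset.prod_congr rfl fun b _ => ?_
    rw [hvρ, ← zpow_natCast, ← zpow_mul, ← zpow_natCast, ← zpow_mul, mul_comm]
  have h4 := Pool.Agent.Y221.AB.bor_li (E := MK) (ι := {e // e ∈ S}) (r := 1) (s := S.card)
    (N := m) (by rw [Module.finrank_self]) (by rw [hm]) (u := fun e => U e.1) (fun e => hU0 e.1)
    (fun i j hij a h => by
      refine hne i.1 i.2 j.1 j.2 (fun h' => hij (Subtype.ext h')) (a ^ m) ?_
      rw [hmon, hmon, h, mul_pow, map_pow])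
    Finset.univ (by simp) (fun e => c e.1) (by
      rw [← hsum, ← Finset.sum_coe_sort S]
      refine Finset.sum_congr rfl fun e _ => ?_
      rw [hmon, Algebra.smul_def])
  exact h4 ⟨e, he⟩ (Finset.mem_univ _)

/-! ### Forms -/

variable {k : Type} [Field k] [Algebra k ℂ] {M q : ℕ} {d : Fin q → ℕ}

/-- the form with the coefficients `t` -/
noncomputable def form (t : Idx M d → ℂ) (b : Fin q) : MvPolynomial (Fin (M + 1)) ℂ :=
  ∑ β : Mon M (d b), monomial β.1 (t ⟨b, β⟩)

lemma form_hom (t : Idx M d → ℂ) (b : Fin q) : (form t b).IsHomogeneous (d b) :=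
  IsHomogeneous.sum _ _ _ fun β _ => isHomogeneous_monomial _ β.2

lemma fv_eq_aeval {L : Type} [Field L] [Algebra ℂ L] (t : Idx M d → ℂ) (x : Fin (M + 1) → L)
    (b : Fin q) : fv t x b = aeval x (form t b) := by
  unfold fv form
  rw [map_sum]
  refine Finset.sum_congr rfl fun β _ => ?_
  rw [aeval_monomial]
  congr 1
  unfold val
  rw [Finsupp.prod_fintype]
  intro i
  exact pow_zero _

lemma eval_form (t : Idx M d → ℂ) (x : Fin (M + 1) → ℂ) (b : Fin q) :
    fv t x b = eval x (form t b) := by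
  rw [fv_eq_aeval, aeval_eq_eval]

/-- an entire curve in a stratum gives a bad point -/
theorem bad_of_hol {V : Set (MvPolynomial (Fin (M + 1)) k)} {C : Finset (Fin q)}
    {t : Idx M d → ℂ} {H : ℂ → Mat M} (hH : HolP univ H)
    (hV : ∀ P ∈ V, ∀ z, ∀ u : Fin (M + 1) → ℂ, u ≠ 0 → H z = Phi u → aeval u P = 0)
    (hC : ∀ c ∈ C, ∀ z, ∀ u : Fin (M + 1) → ℂ, u ≠ 0 → H z = Phi u → eval u (form t c) = 0)
    (hoff : ∀ b, b ∉ C → ∀ z, ∀ u : Fin (M + 1) → ℂ, u ≠ 0 → H z = Phi u →
      eval u (form t b) ≠ 0)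
    (hnc : ¬ ∀ z, H z = H 0) : ∃ x : Fin (M + 1) → MK, Bad k ℂ MK V C t x := by
  classical
  obtain ⟨i, hi⟩ := PM.exists_diag (hH.mem_PM (mem_univ 0))
  have hmer : ∀ j z, MeromorphicAt (fun w => chart i (H w) j) z := by
    intro j z
    obtain ⟨W, F, hW, hzW, hd, hF⟩ := hH z (mem_univ z)
    have hA : ∀ k, AnalyticAt ℂ (fun w => F w k) z := by
      intro k
      have : DifferentiableOn ℂ (fun w => F w k) W := (differentiableOn_pi.1 hd) k
      exact this.analyticAt (hW.mem_nhds hzW)
    have hm : MeromorphicAt ((fun w => F w j) / fun w => F w i) z :=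
      (hA j).meromorphicAt.div (hA i).meromorphicAt
    refine hm.congr ?_
    have hev : ∀ᶠ w in 𝓝 z, ((fun w => F w j) / fun w => F w i) w = chart i (H w) j := by
      filter_upwards [hW.mem_nhds hzW] with w hw
      rw [Pi.div_apply]
      unfold chart
      rw [(hF w hw).2]
      by_cases h0 : F w i = 0
      · rw [h0, div_zero]
        have : Phi (F w) i i = 0 := by
          by_contra hne
          exact (Phi_diag_ne (hF w hw).1).1 hne h0
        rw [this, div_zero]
      · rw [Phi_ratio (hF w hw).1 h0]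
    exact hev.filter_mono nhdsWithin_le_nhds
  have hcont : ∀ z, ContinuousAt H z := fun z => hH.continuousAt (mem_univ z)
  obtain ⟨f, hf⟩ : ∃ f : Fin (M + 1) → ℂ → ℂ, f = fun a z => chart i (H z) a := ⟨_, rfl⟩
  have hfm : ∀ a, Meromorphic (f a) := by
    intro a z
    rw [hf]
    exact hmer a z
  have hfc : ∀ z, (fun a => f a z) = chart i (H z) := fun z => by rw [hf]
  obtain ⟨x, hx⟩ : ∃ x : Fin (M + 1) → MK, x = fun a => cl (f a) (hfm a) := ⟨_, rfl⟩
  -- the chart is defined off a discrete set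
  have hone : x i = 1 := by
    have h1 : x i * x i = x i := by
      rw [hx]
      simp only
      rw [cl_mul, cl_eq]
      refine Eventually.of_forall fun z => ?_
      rw [Pi.mul_apply, hf]
      simp only [chart]
      by_cases h : H z i i = 0
      · rw [h, div_zero, zero_mul]
      · rw [div_self h, one_mul]
    have h2 : x i ≠ 0 := by
      intro h0
      rw [hx] at h0
      simp only at h0
      rw [cl_eq_zero] at h0
      have h3 : ∀ᶠ w in 𝓝[≠] (0 : ℂ), f i w = 0 := codis_ev h0 0
      have h4 : ∀ᶠ w in 𝓝[≠] (0 : ℂ), H w i i ≠ 0 := by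
        have h5 : ContinuousAt (fun w => H w i i) 0 :=
          ((continuous_apply_apply i i).continuousAt).comp (hcont 0)
        exact (h5.eventually_ne hi).filter_mono nhdsWithin_le_nhds
      obtain ⟨w, hw1, hw2⟩ := (h3.and h4).exists
      rw [hf] at hw1
      simp only [chart] at hw1
      rw [div_self hw2] at hw1
      exact one_ne_zero hw1
    exact mul_left_cancel₀ h2 (by rw [h1, mul_one])
  have hcod : ∀ᶠ z in codiscrete ℂ, H z i i ≠ 0 := by
    have h1 : cl (f i) (hfm i) = cl (fun _ => 1) (Meromorphic.const 1) := by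
      rw [cl_const, map_one, ← hone, hx]
    rw [cl_eq] at h1
    filter_upwards [h1] with z hz h0
    rw [hf] at hz
    simp only [chart] at hz
    rw [h0, div_zero] at hz
    exact zero_ne_one hz
  have hPhi : ∀ z, H z i i ≠ 0 → chart i (H z) ≠ 0 ∧ H z = Phi (chart i (H z)) := fun z hz =>
    ⟨PM.chart_ne hz, (PM.Phi_chart (hH.mem_PM (mem_univ z)) hz).symm⟩
  have hval : ∀ T : MvPolynomial (Fin (M + 1)) ℂ,
      aeval x T = cl (fun z => eval (fun j => f j z) T) (mero_eval hfm T) := by
    intro T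
    rw [hx]
    exact aeval_cl f hfm T
  have hzero : ∀ T : MvPolynomial (Fin (M + 1)) ℂ,
      (∀ z, H z i i ≠ 0 → eval (chart i (H z)) T = 0) → aeval x T = 0 := by
    intro T hT
    rw [hval, cl_eq_zero]
    filter_upwards [hcod] with z hz
    rw [hfc]
    exact hT z hz
  refine ⟨x, ?_, ?_, ?_, ?_, ?_, ?_⟩
  · intro P hP
    have h1 : eval₂ ((algebraMap ℂ MK).comp (algebraMap k ℂ)) x P =
        aeval x (map (algebraMap k ℂ) P) := by
      rw [aeval_def, eval₂_map]
    rw [h1]
    refine hzero _ fun z hz => ?_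
    rw [eval_map]
    exact hV P hP z _ (hPhi z hz).1 (hPhi z hz).2
  · intro c hc
    rw [fv_eq_aeval]
    exact hzero _ fun z hz => hC c hc z _ (hPhi z hz).1 (hPhi z hz).2
  · intro b hb h0
    rw [fv_eq_aeval, hval, cl_eq_zero] at h0
    obtain ⟨z, hz1, hz2⟩ := (h0.and hcod).exists
    rw [hfc] at hz1
    exact hoff b hb z _ (hPhi z hz2).1 (hPhi z hz2).2 hz1
  · intro h0
    rw [h0] at hone
    exact zero_ne_one hone
  · intro c y h0
    have h1 : c * algebraMap ℂ MK (y i) = 1 := by rw [← hone, h0]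
    have hyi : y i ≠ 0 := by
      intro h
      rw [h, map_zero, mul_zero] at h1
      exact zero_ne_one h1
    have h2 : ∀ a, x a = algebraMap ℂ MK (y a / y i) := by
      intro a
      have h3 : x a = c * algebraMap ℂ MK (y a) := by rw [h0]
      have h4 : algebraMap ℂ MK (y i) ≠ 0 := by
        rw [Ne, map_eq_zero]
        exact hyi
      rw [h3, map_div₀, eq_div_iff h4]
      linear_combination (algebraMap ℂ MK (y a)) * h1
    have h3 : ∀ᶠ z in codiscrete ℂ, ∀ a, f a z = y a / y i := by
      rw [eventually_all]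
      intro a
      have h4 := h2 a
      rw [hx] at h4
      simp only at h4
      rw [← cl_const, cl_eq] at h4
      exact h4
    have h4 : ∀ᶠ z in codiscrete ℂ, H z = Phi fun a => y a / y i := by
      filter_upwards [h3, hcod] with z hz1 hz2
      rw [(hPhi z hz2).2, ← hfc z]
      congr 1
      funext a
      exact hz1 a
    have h5 : ∀ z, H z = Phi fun a => y a / y i := by
      intro z
      have h6 : ∀ᶠ w in 𝓝[≠] z, H w = Phi fun a => y a / y i := codis_ev h4 z
      have h7 : Tendsto H (𝓝[≠] z) (𝓝 (H z)) := (hcont z).tendsto.mono_left nhdsWithin_le_nhds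
      exact tendsto_nhds_unique h7 (tendsto_const_nhds.congr' (h6.mono fun w hw => hw.symm))
    exact hnc fun z => by rw [h5 z, h5 0]
  · intro b₀ hb₀
    choose u hu hHu using fun z => hH.mem_PM (mem_univ z)
    obtain ⟨Wq, hWq⟩ : ∃ Wq : Fin q → (Fin (M + 1) → ℂ) → ℂ, Wq = fun b v =>
      eval v (form t b) ^ d b₀ / eval v (form t b₀) ^ d b := ⟨_, rfl⟩
    have hscale : ∀ b v (c : ℂ), c ≠ 0 → Wq b (c • v) = Wq b v := by
      intro b v c hc
      rw [hWq]
      simp only
      rw [eval_smul_form (form_hom t b), eval_smul_form (form_hom t b₀), mul_pow, mul_pow,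
        ← pow_mul, ← pow_mul, mul_comm (d b₀)]
      exact mul_div_mul_left _ _ (pow_ne_zero _ hc)
    have hWeq : ∀ b (v v' : Fin (M + 1) → ℂ), v ≠ 0 → v' ≠ 0 → Phi v = Phi v' →
        Wq b v = Wq b v' := by
      intro b v v' hv hv' h
      obtain ⟨c, hc, rfl⟩ := Phi_inj hv hv' h
      rw [hscale b v c hc]
    obtain ⟨w, hw⟩ : ∃ w : Fin q → ℂ → ℂ, w = fun b z => if b ∈ C then 1 else Wq b (u z) :=
      ⟨_, rfl⟩
    have hwd : ∀ b, Differentiable ℂ (w b) := by
      intro b
      by_cases hb : b ∈ C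
      · have : w b = fun _ => 1 := by
          rw [hw]
          funext z
          simp only [if_pos hb]
        rw [this]
        exact differentiable_const _
      · intro z
        obtain ⟨W, F, hWo, hzW, hd, hF⟩ := hH z (mem_univ z)
        have hFz : ∀ j, DifferentiableAt ℂ (fun w => F w j) z := fun j =>
          differentiableAt_pi.1 ((hd z hzW).differentiableAt (hWo.mem_nhds hzW)) j
        have hFe : ∀ T : MvPolynomial (Fin (M + 1)) ℂ,
            DifferentiableAt ℂ (fun w => eval (F w) T) z := by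
          intro T
          have h7 : (fun w => eval (F w) T) = fun w => ∑ β ∈ T.support,
              coeff β T * ∏ j, F w j ^ β j := by
            funext w
            rw [eval_eq']
          rw [h7]
          refine DifferentiableAt.fun_sum fun β _ => ?_
          refine (differentiableAt_const _).mul ?_
          exact DifferentiableAt.fun_finsetProd fun j _ => (hFz j).pow _
        have h8 : DifferentiableAt ℂ (fun w => Wq b (F w)) z := by
          rw [hWq]
          exact ((hFe _).pow _).div ((hFe _).pow _)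
            (pow_ne_zero _ (hoff b₀ hb₀ z _ (hF z hzW).1 (hF z hzW).2))
        refine h8.congr_of_eventuallyEq ?_
        filter_upwards [hWo.mem_nhds hzW] with y hy
        rw [hw]
        simp only [if_neg hb]
        exact hWeq b _ _ (hu y) (hF y hy).1 (by rw [← hHu y, (hF y hy).2])
    have hw0 : ∀ b z, w b z ≠ 0 := by
      intro b z
      rw [hw]
      by_cases hb : b ∈ C
      · simp only [if_pos hb]
        exact one_ne_zero
      · simp only [if_neg hb]
        rw [hWq]
        exact div_ne_zero (pow_ne_zero _ (hoff b hb z _ (hu z) (hHu z)))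
          (pow_ne_zero _ (hoff b₀ hb₀ z _ (hu z) (hHu z)))
    refine ind_units w hwd hw0 _ fun b => ?_
    unfold quo
    by_cases hb : b ∈ C
    · rw [if_pos hb]
      have h1 : cl (w b) (ent_mero (hwd b)) = cl (fun _ => 1) (Meromorphic.const 1) := by
        rw [cl_eq]
        refine Eventually.of_forall fun z => ?_
        rw [hw]
        simp only [if_pos hb]
      rw [h1, cl_const, map_one]
    · rw [if_neg hb, fv_eq_aeval, fv_eq_aeval, hval, hval]
      refine (congrArg₂ (· / ·) (cl_pow _ _) (cl_pow _ _)).trans ?_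
      refine (cl_div _ _).trans (cl_eq.2 ?_)
      filter_upwards [hcod] with z hz
      rw [Pi.div_apply, Pi.pow_apply, Pi.pow_apply, hfc, hw]
      simp only [if_neg hb]
      rw [hWeq b (u z) (chart i (H z)) (hu z) (hPhi z hz).1 (by rw [← hHu z, ← (hPhi z hz).2]),
        hWq]

end Pool.Agent.NH29.GK
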