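import Pool.Agent.NH29.GK.Bad
import Pool.Agent.NH29.GK.Ah

/-!
# Kobayashi hyperbolicity of Zariski-general complements
-/

set_option autoImplicit false

namespace Pool.Agent.NH29.GK

open MvPolynomial Filter Topology Metric Set
open Pool.Agent.NH29.GN (Idx Mon fv Bad NoZero Num2 stb UP)
open scoped ENNReal

variable {k : Type} [Field k] [Algebra k ℂ] {M q : ℕ}

/-- no bad points over the field of meromorphic functions -/
theorem no_bad {n : ℕ} {V : Set (MvPolynomial (Fin (M + 1)) k)}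
    (hV : ∀ H ∈ V, ∃ e, H.IsHomogeneous e)
    {ℓ : Fin (n + 1) → MvPolynomial (Fin (M + 1)) k} (hℓ : ∀ j, (ℓ j).IsHomogeneous 1)
    (hN : NoZero V ℓ) (hq : n + 1 ≤ q) {d : Fin q → ℕ} (hd : ∀ i, 1 ≤ d i)
    (hNum : ∀ C : Finset (Fin q), C ≠ Finset.univ → Num2 n d C) :
    ∃ Φ : MvPolynomial (Idx M d) k, Φ ≠ 0 ∧ ∀ t : Idx M d → ℂ, aeval t Φ ≠ 0 →
      ∀ C : Finset (Fin q), C ≠ Finset.univ →
      ∀ x : Fin (M + 1) → Pool.Agent.TH143.EL.MK, ¬ Bad k ℂ Pool.Agent.TH143.EL.MK V C t x := by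
  classical
  have hk : CharZero k := (algebraMap k ℂ).charZero
  have h1 : ∀ C : Finset (Fin q), ∃ Φ : MvPolynomial (Idx M d) k, Φ ≠ 0 ∧
      (C ≠ Finset.univ → ∀ t : Idx M d → ℂ, aeval t Φ ≠ 0 →
      ∀ x : Fin (M + 1) → Pool.Agent.TH143.EL.MK, ¬ Bad k ℂ Pool.Agent.TH143.EL.MK V C t x) := by
    intro C
    by_cases hCu : C = Finset.univ
    · exact ⟨1, one_ne_zero, fun h => absurd hCu h⟩
    · by_contra hcon
      push Not at hcon
      obtain ⟨K', L', _, _, _, _, _, t, x, ht, hx⟩ := stb k ℂ Pool.Agent.TH143.EL.MK M q V d C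
        (fun Q hQ => by
          obtain ⟨-, t, h1, x, h2⟩ := hcon Q hQ
          exact ⟨t, h1, x, h2⟩)
      exact stcP k K' L' M n q V hV ℓ hℓ hN hq d hd C (hNum C hCu) t ht x hx
  choose Φ h1 h2 using h1
  refine ⟨∏ C, Φ C, Finset.prod_ne_zero_iff.2 fun C _ => h1 C, fun t ht C hCu x => ?_⟩
  rw [map_prod, Finset.prod_ne_zero_iff] at ht
  exact h2 C hCu t (ht C (Finset.mem_univ _)) x

/-- the projection matrices of the points of the closure -/
def clS (V : Set (MvPolynomial (Fin (M + 1)) k)) {d : Fin q → ℕ} (t : Idx M d → ℂ)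
    (C : Finset (Fin q)) : Set (Mat M) :=
  Phi '' {u | u ∈ sphere (0 : Fin (M + 1) → ℂ) 1 ∧ (∀ H ∈ V, aeval u H = 0) ∧
    ∀ c ∈ C, eval u (form t c) = 0}

lemma aeval_eq_map (H : MvPolynomial (Fin (M + 1)) k) (u : Fin (M + 1) → ℂ) :
    aeval u H = eval u (map (algebraMap k ℂ) H) := by
  rw [eval_map]
  rfl

lemma aeval_smul_form {H : MvPolynomial (Fin (M + 1)) k} {e : ℕ} (hH : H.IsHomogeneous e) (c : ℂ)
    (u : Fin (M + 1) → ℂ) : aeval (c • u) H = c ^ e * aeval u H := by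
  rw [aeval_eq_map, aeval_eq_map, eval_smul_form (hH.map _)]

lemma compact_clS (V : Set (MvPolynomial (Fin (M + 1)) k)) {d : Fin q → ℕ} (t : Idx M d → ℂ)
    (C : Finset (Fin q)) : IsCompact (clS V t C) := by
  refine IsCompact.image_of_continuousOn ?_ ?_
  · refine (isCompact_sphere (0 : Fin (M + 1) → ℂ) 1).inter_right ?_
    have h1 : IsClosed {u : Fin (M + 1) → ℂ | ∀ H ∈ V, aeval u H = 0} := by
      have h2 : {u : Fin (M + 1) → ℂ | ∀ H ∈ V, aeval u H = 0} =
          ⋂ H ∈ V, {u | eval u (map (algebraMap k ℂ) H) = 0} := by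
        ext u
        simp only [mem_ofPred_eq, mem_iInter, aeval_eq_map]
      rw [h2]
      exact isClosed_biInter fun H _ => isClosed_eq (continuous_eval _) continuous_const
    have h3 : IsClosed {u : Fin (M + 1) → ℂ | ∀ c ∈ C, eval u (form t c) = 0} := by
      have h2 : {u : Fin (M + 1) → ℂ | ∀ c ∈ C, eval u (form t c) = 0} =
          ⋂ c ∈ C, {u | eval u (form t c) = 0} := by
        ext u
        simp only [mem_ofPred_eq, mem_iInter]
      rw [h2]
      exact isClosed_biInter fun c _ => isClosed_eq (continuous_eval _) continuous_const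
    exact h1.inter h3
  · intro u hu
    refine (continuousAt_Phi ?_).continuousWithinAt
    rintro rfl
    have h1 := hu.1
    simp at h1

lemma clS_PM (V : Set (MvPolynomial (Fin (M + 1)) k)) {d : Fin q → ℕ} (t : Idx M d → ℂ)
    (C : Finset (Fin q)) : clS V t C ⊆ PM M := by
  rintro _ ⟨u, hu, rfl⟩
  refine ⟨u, ?_, rfl⟩
  rintro rfl
  have h1 := hu.1
  simp at h1

lemma mem_clS {V : Set (MvPolynomial (Fin (M + 1)) k)} (hV : ∀ H ∈ V, ∃ e, H.IsHomogeneous e)
    {d : Fin q → ℕ} {t : Idx M d → ℂ} {C : Finset (Fin q)} {u : Fin (M + 1) → ℂ} (hu : u ≠ 0) :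
    Phi u ∈ clS V t C ↔ (∀ H ∈ V, aeval u H = 0) ∧ ∀ c ∈ C, eval u (form t c) = 0 := by
  constructor
  · rintro ⟨v, ⟨hv1, hv2, hv3⟩, h⟩
    have hv : v ≠ 0 := by
      rintro rfl
      simp at hv1
    obtain ⟨c, -, rfl⟩ := Phi_inj hv hu h
    refine ⟨fun H hH => ?_, fun i hi => ?_⟩
    · obtain ⟨e, he⟩ := hV H hH
      rw [aeval_smul_form he, hv2 H hH, mul_zero]
    · rw [eval_smul_form (form_hom t i), hv3 i hi, mul_zero]
  · rintro ⟨h1, h2⟩
    have hn : (‖u‖ : ℂ) ≠ 0 := by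
      rw [Ne, Complex.ofReal_eq_zero, norm_eq_zero]
      exact hu
    refine ⟨((‖u‖ : ℂ)⁻¹) • u, ⟨?_, fun H hH => ?_, fun i hi => ?_⟩, Phi_smul (inv_ne_zero hn) u⟩
    · rw [mem_sphere_zero_iff_norm, norm_smul, norm_inv, Complex.norm_real, norm_norm]
      exact inv_mul_cancel₀ (norm_ne_zero_iff.2 hu)
    · obtain ⟨e, he⟩ := hV H hH
      rw [aeval_smul_form he, h1 H hH, mul_zero]
    · rw [eval_smul_form (form_hom t i), h2 i hi, mul_zero]

/-- the derivatives of the discs in `U` are bounded -/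
theorem bounded_deriv {V : Set (MvPolynomial (Fin (M + 1)) k)}
    (hV : ∀ H ∈ V, ∃ e, H.IsHomogeneous e) {d : Fin q → ℕ} {t : Idx M d → ℂ}
    (hbad : ∀ C : Finset (Fin q), C ≠ Finset.univ →
      ∀ x : Fin (M + 1) → Pool.Agent.TH143.EL.MK, ¬ Bad k ℂ Pool.Agent.TH143.EL.MK V C t x)
    (hnz : ∀ y : Fin (M + 1) → ℂ, (∀ H ∈ V, aeval y H = 0) → (∀ i, eval y (form t i) = 0) → y = 0)
    (C : Finset (Fin q)) :
    ∃ D : ℝ, 0 < D ∧ ∀ Ψ : ℂ → Mat M, HolP (ball 0 1) Ψ →
      (∀ z ∈ ball (0 : ℂ) 1, Ψ z ∈ Phi '' {u | u ≠ 0 ∧ (∀ H ∈ V, aeval u H = 0) ∧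
        (∀ c ∈ C, eval u (form t c) = 0) ∧ ∀ b, b ∉ C → eval u (form t b) ≠ 0}) →
      ‖fderiv ℝ Ψ 0‖ ≤ D := by
  classical
  refine green (compact_clS V t C) (clS_PM V t C) ?_ (β := {b // b ∉ C})
    (P := fun b => form t b.1) (e := fun b => d b.1) (fun b => form_hom t b.1) ?_ ?_
  · rintro _ ⟨u, ⟨hu, h1, h2, -⟩, rfl⟩
    exact (mem_clS hV hu).2 ⟨h1, h2⟩
  · rintro b _ ⟨u, ⟨hu, -, -, h3⟩, rfl⟩ h
    exact h3 b.1 b.2 ((isZero_iff (form_hom t b.1) hu).1 h)
  · intro H hH hHS hd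
    by_contra hnc
    set C' : Finset (Fin q) := Finset.univ.filter fun b => b ∈ C ∨
      ∀ z, IsZero (form t b) (H z) with hC'
    have hS : ∀ z, ∀ u : Fin (M + 1) → ℂ, u ≠ 0 → H z = Phi u →
        (∀ P ∈ V, aeval u P = 0) ∧ ∀ c ∈ C, eval u (form t c) = 0 := by
      intro z u hu h
      have h1 := hHS z
      rw [h] at h1
      exact (mem_clS hV hu).1 h1
    have hCz : ∀ c ∈ C', ∀ z, ∀ u : Fin (M + 1) → ℂ, u ≠ 0 → H z = Phi u →
        eval u (form t c) = 0 := by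
      intro c hc z u hu h
      rw [hC', Finset.mem_filter] at hc
      rcases hc.2 with h1 | h1
      · exact (hS z u hu h).2 c h1
      · exact h1 z u hu h
    have hC'u : C' ≠ Finset.univ := by
      intro h
      obtain ⟨u, hu, hu'⟩ := hH.mem_PM (mem_univ 0)
      refine hu (hnz u (hS 0 u hu hu').1 fun i => hCz i ?_ 0 u hu hu')
      rw [h]
      exact Finset.mem_univ _
    obtain ⟨x, hx⟩ := bad_of_hol hH (V := V) (C := C') (t := t)
      (fun P hP z u hu h => (hS z u hu h).1 P hP) hCz (fun b hb z u hu h h0 => by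
        have h1 : b ∉ C := fun h2 => hb (by
          rw [hC', Finset.mem_filter]
          exact ⟨Finset.mem_univ _, Or.inl h2⟩)
        rcases hd ⟨b, h1⟩ with h2 | h2
        · exact hb (by
            rw [hC', Finset.mem_filter]
            exact ⟨Finset.mem_univ _, Or.inr h2⟩)
        · refine h2 z ?_
          rw [h]
          exact (isZero_iff (form_hom t b) hu).2 h0) hnc
    exact hbad C' hC'u x hx

/-! ### Entire curves -/

/-- a positive lower bound for the Kobayashi pseudodistance implies that entire curves are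
constant -/
theorem entire_const {U : Set (Fin (M + 1) → ℂ)} {x y : Fin (M + 1) → ℂ}
    {f : ℂ → Fin (M + 1) → ℂ} (hf : Differentiable ℂ f) (hU : ∀ z, f z ∈ U) {z w : ℂ}
    (hx : x = f z) (hy : y = f w) : kobayashi U x y = 0 := by
  subst hx hy
  refine le_antisymm (ENNReal.le_of_forall_pos_le_add fun ε hε _ => ?_) zero_le
  rw [zero_add]
  -- a large radius
  have h1 : Tendsto (fun R : ℝ => Real.log ((1 + R⁻¹) / (1 - R⁻¹))) atTop (𝓝 0) := by
    have h2 : Tendsto (fun R : ℝ => R⁻¹) atTop (𝓝 0) := tendsto_inv_atTop_zero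
    have h3 : Tendsto (fun R : ℝ => (1 + R⁻¹) / (1 - R⁻¹)) atTop (𝓝 ((1 + 0) / (1 - 0))) :=
      (tendsto_const_nhds.add h2).div (tendsto_const_nhds.sub h2) (by norm_num)
    have h4 : ((1 : ℝ) + 0) / (1 - 0) = 1 := by norm_num
    rw [h4] at h3
    have h5 := (Real.continuousAt_log (one_ne_zero : (1 : ℝ) ≠ 0)).tendsto.comp h3
    rw [Real.log_one] at h5
    exact h5
  obtain ⟨R, hR1, hR2⟩ := ((h1.eventually_lt_const (show (0 : ℝ) < ε by exact_mod_cast hε)).and
    (eventually_gt_atTop 1)).exists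
  have hR0 : (0 : ℝ) < R := by linarith
  have hRi : R⁻¹ < 1 := inv_lt_one_of_one_lt₀ hR2
  have hn : ‖((R⁻¹ : ℝ) : ℂ)‖ = R⁻¹ := by
    rw [Complex.norm_real, Real.norm_of_nonneg (by positivity)]
  have hchain : IsChain U (f z) (f w) (N := 1) (fun _ t => f (z + R * t * (w - z)))
      (fun _ => ((R⁻¹ : ℝ) : ℂ)) ![f z, f w] := by
    refine ⟨fun i => ?_, fun i t _ => hU _, fun i => ?_, fun i => ?_, fun i => ?_, ?_, ?_⟩
    · exact (hf.comp (by fun_prop : Differentiable ℂ fun t : ℂ => z + R * t * (w - z))).differentiableOn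
    · rw [mem_ball_zero_iff, hn]
      exact hRi
    · refine ⟨1, one_ne_zero, ?_⟩
      rw [one_smul]
      fin_cases i
      simp
    · refine ⟨1, one_ne_zero, ?_⟩
      rw [one_smul]
      have h6 : (z + R * ((R⁻¹ : ℝ) : ℂ) * (w - z)) = w := by
        have : (R : ℂ) ≠ 0 := by exact_mod_cast hR0.ne'
        push_cast
        field_simp
        ring
      rw [h6]
      fin_cases i
      simp
    · exact ⟨1, one_ne_zero, by simp⟩
    · exact ⟨1, one_ne_zero, by
        rw [one_smul]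
        rfl⟩
  unfold kobayashi
  refine (iInf_le _ 1).trans ((iInf_le _ (fun _ t => f (z + R * t * (w - z)))).trans
    ((iInf_le _ (fun _ => ((R⁻¹ : ℝ) : ℂ))).trans ((iInf_le _ ![f z, f w]).trans
      ((iInf_le _ hchain).trans ?_))))
  rw [Finset.sum_const, Finset.card_univ, Fintype.card_fin, one_smul, hn,
    ← ENNReal.ofReal_coe_nnreal]
  exact ENNReal.ofReal_le_ofReal hR1.le

end Pool.Agent.NH29.GK
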