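import Mathlib

/-! The projection matrix onto a line of `ℂ³`, and projectively holomorphic maps. -/

set_option autoImplicit false

open Filter Topology Metric Set

namespace Pool.Agent.NH29.GK

variable {M : ℕ}

/-- matrices -/
abbrev Mat (M : ℕ) : Type := Fin (M + 1) → Fin (M + 1) → ℂ

/-- the sum of squares of the absolute values of the coordinates -/
noncomputable def nsq (u : Fin (M + 1) → ℂ) : ℂ := ∑ l, u l * (starRingEnd ℂ) (u l)

/-- the matrix of the orthogonal projection onto the line spanned by `u` -/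
noncomputable def Phi (u : Fin (M + 1) → ℂ) : Mat M := fun j k => u j * (starRingEnd ℂ) (u k) / nsq u

lemma nsq_eq (u : Fin (M + 1) → ℂ) : nsq u = ((∑ l, ‖u l‖ ^ 2 : ℝ) : ℂ) := by
  unfold nsq
  push_cast
  refine Finset.sum_congr rfl fun l _ => ?_
  rw [Complex.mul_conj, Complex.normSq_eq_norm_sq]
  push_cast
  rfl

lemma nsq_ne {u : Fin (M + 1) → ℂ} (hu : u ≠ 0) : nsq u ≠ 0 := by
  rw [nsq_eq]
  intro h
  have h1 : (∑ l, ‖u l‖ ^ 2 : ℝ) = 0 := by exact_mod_cast h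
  rw [Finset.sum_eq_zero_iff_of_nonneg (fun i _ => by positivity)] at h1
  apply hu
  funext l
  have := h1 l (Finset.mem_univ l)
  simpa using this

lemma Phi_smul {c : ℂ} (hc : c ≠ 0) (u : Fin (M + 1) → ℂ) : Phi (c • u) = Phi u := by
  have h1 : nsq (c • u) = c * (starRingEnd ℂ) c * nsq u := by
    unfold nsq
    rw [Finset.mul_sum]
    refine Finset.sum_congr rfl fun l _ => ?_
    simp only [Pi.smul_apply, smul_eq_mul, map_mul]
    ring
  funext j k
  unfold Phi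
  rw [h1]
  simp only [Pi.smul_apply, smul_eq_mul, map_mul]
  have h2 : (starRingEnd ℂ) c ≠ 0 := by
    rwa [Ne, map_eq_zero]
  rw [show c * u j * ((starRingEnd ℂ) c * (starRingEnd ℂ) (u k)) =
    (c * (starRingEnd ℂ) c) * (u j * (starRingEnd ℂ) (u k)) by ring]
  rw [mul_div_mul_left _ _ (mul_ne_zero hc h2)]

lemma Phi_diag_ne {u : Fin (M + 1) → ℂ} (hu : u ≠ 0) {i : Fin (M + 1)} : Phi u i i ≠ 0 ↔ u i ≠ 0 := by
  unfold Phi
  constructor
  · intro h h0
    apply h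
    rw [h0]; simp
  · intro h
    apply div_ne_zero (mul_ne_zero h _) (nsq_ne hu)
    rwa [Ne, map_eq_zero]

lemma Phi_ratio {u : Fin (M + 1) → ℂ} (hu : u ≠ 0) {i : Fin (M + 1)} (hi : u i ≠ 0) (j : Fin (M + 1)) :
    Phi u j i / Phi u i i = u j / u i := by
  have h1 := nsq_ne hu
  have h2 : (starRingEnd ℂ) (u i) ≠ 0 := by rwa [Ne, map_eq_zero]
  unfold Phi
  field_simp

/-- the chart at `i` -/
noncomputable def chart (i : Fin (M + 1)) (A : Mat M) : Fin (M + 1) → ℂ := fun j => A j i / A i i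

lemma chart_Phi {u : Fin (M + 1) → ℂ} (hu : u ≠ 0) {i : Fin (M + 1)} (hi : u i ≠ 0) :
    chart i (Phi u) = (u i)⁻¹ • u := by
  funext j
  unfold chart
  rw [Phi_ratio hu hi, Pi.smul_apply, smul_eq_mul]
  ring

lemma Phi_chart {u : Fin (M + 1) → ℂ} (hu : u ≠ 0) {i : Fin (M + 1)} (hi : u i ≠ 0) :
    Phi (chart i (Phi u)) = Phi u := by
  rw [chart_Phi hu hi, Phi_smul (inv_ne_zero hi)]

/-- the set of projection matrices -/
def PM (M : ℕ) : Set (Mat M) := {A | ∃ u : Fin (M + 1) → ℂ, u ≠ 0 ∧ A = Phi u}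

lemma PM.exists_diag {A : Mat M} (hM : A ∈ PM M) : ∃ i, A i i ≠ 0 := by
  obtain ⟨u, hu, rfl⟩ := hM
  obtain ⟨i, hi⟩ := Function.ne_iff.1 hu
  exact ⟨i, (Phi_diag_ne hu).2 hi⟩

lemma PM.chart_self {A : Mat M} {i : Fin (M + 1)} (hi : A i i ≠ 0) : chart i A i = 1 := by
  unfold chart
  exact div_self hi

lemma PM.chart_ne {A : Mat M} {i : Fin (M + 1)} (hi : A i i ≠ 0) : chart i A ≠ 0 := by
  intro h
  have := congrFun h i
  rw [PM.chart_self hi] at this
  exact one_ne_zero this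

lemma PM.Phi_chart {A : Mat M} (hM : A ∈ PM M) {i : Fin (M + 1)} (hi : A i i ≠ 0) :
    Phi (chart i A) = A := by
  obtain ⟨u, hu, rfl⟩ := hM
  exact GK.Phi_chart hu ((Phi_diag_ne hu).1 hi)

lemma Phi_inj {u v : Fin (M + 1) → ℂ} (hu : u ≠ 0) (hv : v ≠ 0) (h : Phi u = Phi v) :
    ∃ c : ℂ, c ≠ 0 ∧ v = c • u := by
  obtain ⟨i, hi⟩ := Function.ne_iff.1 hu
  have hi' : u i ≠ 0 := hi
  have hvi : v i ≠ 0 := (Phi_diag_ne hv).1 (h ▸ (Phi_diag_ne hu).2 hi')
  refine ⟨v i / u i, div_ne_zero hvi hi', ?_⟩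
  have h1 := chart_Phi hu hi'
  have h2 := chart_Phi hv hvi
  rw [h] at h1
  rw [h1] at h2
  funext j
  have h3 := congrFun h2 j
  simp only [Pi.smul_apply, smul_eq_mul] at h3 ⊢
  field_simp at h3 ⊢
  linear_combination -h3

lemma contDiffAt_nsq (u : Fin (M + 1) → ℂ) : ContDiffAt ℝ 1 nsq u := by
  unfold nsq
  apply ContDiffAt.sum
  intro l _
  have h1 : ContDiffAt ℝ 1 (fun u : Fin (M + 1) → ℂ => u l) u :=
    (ContinuousLinearMap.proj (R := ℝ) (φ := fun _ : Fin (M + 1) => ℂ) l).contDiff.contDiffAt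
  have h2 : ContDiffAt ℝ 1 (fun u : Fin (M + 1) → ℂ => (starRingEnd ℂ) (u l)) u :=
    (Complex.conjCLE.toContinuousLinearMap.contDiff.contDiffAt).comp u h1
  exact h1.mul h2

lemma contDiffAt_Phi {u : Fin (M + 1) → ℂ} (hu : u ≠ 0) : ContDiffAt ℝ 1 Phi u := by
  rw [contDiffAt_pi]
  intro j
  rw [contDiffAt_pi]
  intro k
  unfold Phi
  have h1 : ∀ l, ContDiffAt ℝ 1 (fun u : Fin (M + 1) → ℂ => u l) u := fun l =>
    (ContinuousLinearMap.proj (R := ℝ) (φ := fun _ : Fin (M + 1) => ℂ) l).contDiff.contDiffAt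
  have h2 : ContDiffAt ℝ 1 (fun u : Fin (M + 1) → ℂ => (starRingEnd ℂ) (u k)) u :=
    (Complex.conjCLE.toContinuousLinearMap.contDiff.contDiffAt).comp u (h1 k)
  simp only [div_eq_mul_inv]
  exact ((h1 j).mul h2).mul ((contDiffAt_nsq u).inv (nsq_ne hu))

lemma continuousAt_Phi {u : Fin (M + 1) → ℂ} (hu : u ≠ 0) : ContinuousAt Phi u :=
  (contDiffAt_Phi hu).continuousAt

lemma continuousAt_chart {A : Mat M} {i : Fin (M + 1)} (hi : A i i ≠ 0) : ContinuousAt (chart i) A := by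
  rw [continuousAt_pi]
  intro j
  unfold chart
  have h : ∀ j k, ContinuousAt (fun A : Mat M => A j k) A := fun j k =>
    (continuous_apply_apply j k).continuousAt
  exact (h j i).div (h i i) hi

/-! ### projectively holomorphic maps -/

/-- `φ` is projectively holomorphic on `U` -/
def HolP (U : Set ℂ) (φ : ℂ → Mat M) : Prop :=
  ∀ z ∈ U, ∃ (V : Set ℂ) (F : ℂ → Fin (M + 1) → ℂ), IsOpen V ∧ z ∈ V ∧ DifferentiableOn ℂ F V ∧
    ∀ w ∈ V, F w ≠ 0 ∧ φ w = Phi (F w)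

variable {U : Set ℂ} {φ : ℂ → Mat M}

lemma HolP.mono {U' : Set ℂ} (h : HolP U φ) (hU : U' ⊆ U) : HolP U' φ := fun z hz => h z (hU hz)

lemma HolP.mem_PM (h : HolP U φ) {z : ℂ} (hz : z ∈ U) : φ z ∈ PM M := by
  obtain ⟨V, F, -, hzV, -, hF⟩ := h z hz
  exact ⟨F z, (hF z hzV).1, (hF z hzV).2⟩

lemma HolP.contDiffAt (h : HolP U φ) {z : ℂ} (hz : z ∈ U) : ContDiffAt ℝ 1 φ z := by
  obtain ⟨V, F, hV, hzV, hd, hF⟩ := h z hz
  have h1 : φ =ᶠ[𝓝 z] fun w => Phi (F w) := by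
    filter_upwards [hV.mem_nhds hzV] with w hw
    exact (hF w hw).2
  refine ContDiffAt.congr_of_eventuallyEq ?_ h1
  have h2 : ContDiffAt ℂ 1 F z := by
    have : AnalyticAt ℂ F z := hd.analyticAt (hV.mem_nhds hzV)
    exact this.contDiffAt
  exact (contDiffAt_Phi (hF z hzV).1).comp z (h2.restrict_scalars ℝ)

lemma HolP.continuousAt (h : HolP U φ) {z : ℂ} (hz : z ∈ U) : ContinuousAt φ z :=
  (h.contDiffAt hz).continuousAt

/-- holomorphic affine coordinates -/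
lemma HolP.diff_chart (h : HolP U φ) {z : ℂ} (hz : z ∈ U) {i : Fin (M + 1)} (hi : φ z i i ≠ 0) :
    DifferentiableAt ℂ (fun w => chart i (φ w)) z := by
  obtain ⟨V, F, hV, hzV, hd, hF⟩ := h z hz
  have hFi : F z i ≠ 0 := by
    rw [(hF z hzV).2] at hi
    exact (Phi_diag_ne (hF z hzV).1).1 hi
  have hdz : DifferentiableAt ℂ F z := (hd z hzV).differentiableAt (hV.mem_nhds hzV)
  have hcomp : ∀ j, DifferentiableAt ℂ (fun w => F w j) z := fun j =>
    differentiableAt_pi.1 hdz j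
  have hcont : ContinuousAt (fun w => F w i) z := (hcomp i).continuousAt
  have hev : ∀ᶠ w in 𝓝 z, F w i ≠ 0 := hcont.eventually_ne hFi
  have h1 : (fun w => chart i (φ w)) =ᶠ[𝓝 z] fun w => (F w i)⁻¹ • F w := by
    filter_upwards [hV.mem_nhds hzV, hev] with w hw hwi
    rw [(hF w hw).2]
    exact chart_Phi (hF w hw).1 hwi
  refine DifferentiableAt.congr_of_eventuallyEq ?_ h1
  exact ((hcomp i).inv hFi).smul hdz

end Pool.Agent.NH29.GK
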