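import Pool.Agent.NH29.GN.Stm4
import Pool.Agent.NH29.GK.Brody
import Pool.Agent.Y193.Defs

/-!
# Project GK: the conditions of the Lang-Vojta conjecture for complements of general forms
-/

set_option autoImplicit false

namespace Pool.Agent.NH29.GK

open MvPolynomial Metric FF
open Pool.Agent.NH29.GN (Idx fv NoZero)
open Pool.Agent.W603.LV Pool.Agent.W603.PV
open scoped ENNReal

variable {k : Type} [Field k] [Algebra k ℂ] {M q : ℕ}

/-- The homogeneous coordinates of the points of `U`, where `U` is the set of the points at which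
the forms in `V` and the `F c`, `c ∈ C`, vanish, and the `F b`, `b ∉ C`, do not vanish. -/
def Pts (V : Set (MvPolynomial (Fin (M + 1)) k)) (F : Fin q → MvPolynomial (Fin (M + 1)) ℂ)
    (C : Finset (Fin q)) : Set (Fin (M + 1) → ℂ) :=
  {x | x ≠ 0 ∧ (∀ H ∈ V, aeval x H = 0) ∧ (∀ c ∈ C, eval x (F c) = 0) ∧
    ∀ b, b ∉ C → eval x (F b) ≠ 0}

/-- The regular function `x ^ α / ∏ F b` on `U`, `α` of degree `∑ d b` (`b ∉ C`). -/
noncomputable def fn (V : Set (MvPolynomial (Fin (M + 1)) k))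
    (F : Fin q → MvPolynomial (Fin (M + 1)) ℂ) (C : Finset (Fin q)) (α : Fin (M + 1) →₀ ℕ) :
    Pts V F C → ℂ :=
  fun x => (∏ i, x.1 i ^ α i) / ∏ b ∈ Cᶜ, eval x.1 (F b)

/-- The coordinate ring of the affine variety `U`. -/
noncomputable def CoordRing (V : Set (MvPolynomial (Fin (M + 1)) k))
    (F : Fin q → MvPolynomial (Fin (M + 1)) ℂ) (d : Fin q → ℕ) (C : Finset (Fin q)) :
    Subalgebra ℂ (Pts V F C → ℂ) :=
  Algebra.adjoin ℂ {f | ∃ α : Fin (M + 1) →₀ ℕ, α.degree = ∑ b ∈ Cᶜ, d b ∧ f = fn V F C α}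

/-- `x` is a nonzero vector over a function field `E` of one variable, the point `x` is a point of
`U`, integral outside of the finite set `S` of places. -/
structure Integral (K : Type) [Field K] [Algebra k K] {E : Type} [Field E] [Algebra K E]
    (V : Set (MvPolynomial (Fin (M + 1)) k)) {d : Fin q → ℕ} (t : Idx M d → K)
    (C : Finset (Fin q)) (S : Finset (Place K E)) (x : Fin (M + 1) → E) : Prop where
  ne : x ≠ 0
  onV : ∀ H ∈ V, eval₂ ((algebraMap K E).comp (algebraMap k K)) x H = 0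
  onC : ∀ c ∈ C, fv t x c = 0
  off : ∀ b, b ∉ C → fv t x b ≠ 0
  int : ∀ b, b ∉ C → ∀ Q ∉ S, Q.ord (fv t x b) = d b * pord Q x

/-- BM: boundedness of `U` from a bound for heights of integral points over function fields -/
def BmStm : Prop :=
  ∀ (k : Type) [Field k] [Algebra k ℂ] (M q : ℕ) (V : Set (MvPolynomial (Fin (M + 1)) k)),
    (∀ H ∈ V, ∃ e, H.IsHomogeneous e) → ∀ d : Fin q → ℕ, (∀ i, 1 ≤ d i) →
    ∀ F : Fin q → MvPolynomial (Fin (M + 1)) ℂ, (∀ i, (F i).IsHomogeneous (d i)) →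
    ∀ C : Finset (Fin q), C ≠ Finset.univ → ∀ c : ℕ,
    (∀ (E : Type) [Field E] [Algebra ℂ E] [IsFF ℂ E] (S : Finset (Place ℂ E))
      (x : Fin (M + 1) → E),
      Integral ℂ V (d := d) (fun s : Idx M d => coeff s.2.1 (F s.1)) C S x →
      pht ℂ x ≤ c * max (canDeg ℂ E + S.card) 0) →
    Algebra.FiniteType ℂ (CoordRing V F d C) ∧
      Pool.Agent.Y193.BoundedModulo (CoordRing V F d C) ⊤

/-- GNZ: general forms have no common zero -/
def GnzStm : Prop :=
  ∀ (k : Type) [Field k] [CharZero k] (M n q : ℕ)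
    (V : Set (MvPolynomial (Fin (M + 1)) k)), (∀ H ∈ V, ∃ e, H.IsHomogeneous e) →
    ∀ ℓ : Fin (n + 1) → MvPolynomial (Fin (M + 1)) k, (∀ j, (ℓ j).IsHomogeneous 1) →
    NoZero V ℓ → n + 1 ≤ q → ∀ d : Fin q → ℕ, (∀ i, 1 ≤ d i) →
    ∃ Φ : MvPolynomial (Idx M d) k, Φ ≠ 0 ∧ ∀ (K : Type) [Field K] [Algebra k K]
      (t : Idx M d → K), aeval t Φ ≠ 0 → ∀ y : Fin (M + 1) → K, (∀ H ∈ V, aeval y H = 0) →
        (∀ i, fv t y i = 0) → y = 0

/-! ### Kobayashi pseudodistance -/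

/-- The vectors `x` and `y` are homogeneous coordinates of the same point. -/
def Same (x y : Fin (M + 1) → ℂ) : Prop := ∃ c : ℂ, c ≠ 0 ∧ x = c • y

/-- A chain of `N` holomorphic maps `f i` from the unit disc to the set with the homogeneous
coordinates `U`, which connects the points `x` and `y`: it maps `0` and `a i` to the points `z i`
and `z (i + 1)`, where `z 0 = x`, `z N = y`. -/
structure IsChain (U : Set (Fin (M + 1) → ℂ)) (x y : Fin (M + 1) → ℂ) {N : ℕ}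
    (f : Fin N → ℂ → Fin (M + 1) → ℂ) (a : Fin N → ℂ) (z : Fin (N + 1) → Fin (M + 1) → ℂ) :
    Prop where
  hol : ∀ i, DifferentiableOn ℂ (f i) (ball 0 1)
  mem : ∀ i, ∀ t ∈ ball (0 : ℂ) 1, f i t ∈ U
  disc : ∀ i, a i ∈ ball (0 : ℂ) 1
  source : ∀ i, Same (f i 0) (z i.castSucc)
  target : ∀ i, Same (f i (a i)) (z i.succ)
  first : Same (z 0) x
  last : Same (z (Fin.last N)) y

/-- The Kobayashi pseudodistance of `U`: the infimum of the lengths of the chains of discs. The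
distance of `0` and `a` in the unit disc is `log ((1 + |a|) / (1 - |a|))`. -/
noncomputable def kobayashi (U : Set (Fin (M + 1) → ℂ)) (x y : Fin (M + 1) → ℂ) : ℝ≥0∞ :=
  ⨅ (N : ℕ) (f : Fin N → ℂ → Fin (M + 1) → ℂ) (a : Fin N → ℂ) (z : Fin (N + 1) → Fin (M + 1) → ℂ)
    (_ : IsChain U x y f a z), ∑ i, ENNReal.ofReal (Real.log ((1 + ‖a i‖) / (1 - ‖a i‖)))

/-- KOB: a bound for the derivatives of discs at the centre gives a lower bound for the Kobayashi
pseudodistance -/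
def KobStm : Prop :=
  ∀ (M : ℕ) (U : Set (Fin (M + 1) → ℂ)), (∀ x ∈ U, x ≠ 0) → ∀ C : ℝ, 0 < C →
    (∀ Ψ : ℂ → Mat M, HolP (ball 0 1) Ψ → (∀ z ∈ ball (0 : ℂ) 1, Ψ z ∈ Phi '' U) →
      ‖fderiv ℝ Ψ 0‖ ≤ C) →
    ∃ c : ℝ, 0 < c ∧ ∀ x y : Fin (M + 1) → ℂ, x ∈ U → y ∈ U →
      ENNReal.ofReal (c * dist (Phi x) (Phi y)) ≤ kobayashi U x y

end Pool.Agent.NH29.GK
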